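import Pool.Agent.H603R2.NLT.Red

/-!
From 3-colourability to positive one-in-three satisfiability.
-/

namespace Pool.Agent.H603R2.NLT

open Pool.Agent.NPC Pool.Agent.H692R2

/-- clauses of an edge -/
def edgeCl (p : (ℕ × ℕ) × ℕ) : List (VN × VN × VN) :=
  [((0, p.1.1, 0), (0, p.1.1, 1), (0, p.1.1, 2)), ((0, p.1.2, 0), (0, p.1.2, 1), (0, p.1.2, 2)),
    ((0, p.1.1, 0), (0, p.1.2, 0), (1, p.2, 0)), ((0, p.1.1, 1), (0, p.1.2, 1), (1, p.2, 1)),
    ((0, p.1.1, 2), (0, p.1.2, 2), (1, p.2, 2))]

/-- the reduction -/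
def colF (E : List (ℕ × ℕ)) : List (VN × VN × VN) := E.zipIdx.flatMap edgeCl

theorem mem_colF (E : List (ℕ × ℕ)) (c : VN × VN × VN) :
    c ∈ colF E ↔ ∃ e k, E[k]? = some e ∧ c ∈ edgeCl (e, k) := by
  unfold colF
  rw [List.mem_flatMap]
  constructor
  · rintro ⟨⟨e, k⟩, h1, h2⟩
    exact ⟨e, k, by simpa [List.mem_zipIdx_iff_getElem?] using h1, h2⟩
  · rintro ⟨e, k, h1, h2⟩
    exact ⟨(e, k), by simpa [List.mem_zipIdx_iff_getElem?] using h1, h2⟩

theorem colF_dist (E : List (ℕ × ℕ)) (hE : Loopless E) : Dist3 (colF E) := by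
  intro c hc
  obtain ⟨e, k, h1, h2⟩ := (mem_colF E c).1 hc
  have h3 := hE e (List.mem_of_getElem? h1)
  simp only [edgeCl, List.mem_cons, List.not_mem_nil, or_false] at h2
  rcases h2 with rfl | rfl | rfl | rfl | rfl <;> simp [h3]

/-- the value of a variable for a colouring -/
def valF (E : List (ℕ × ℕ)) (c : ℕ → Fin 3) (v : VN) : Bool :=
  if v.1 = 0 then decide ((c v.2.1).val = v.2.2)
  else match E[v.2.1]? with
    | none => false
    | some e => !decide ((c e.1).val = v.2.2) && !decide ((c e.2).val = v.2.2)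

theorem fin3_one3 : ∀ a : Fin 3, one3 (decide (a.val = 0)) (decide (a.val = 1))
    (decide (a.val = 2)) = true := by decide

theorem fin3_edge : ∀ (a b : Fin 3) (i : ℕ), a ≠ b → one3 (decide (a.val = i))
    (decide (b.val = i)) (!decide (a.val = i) && !decide (b.val = i)) = true := by
  intro a b i hab
  have h : ¬ (a.val = i ∧ b.val = i) := fun h => hab (Fin.ext (h.1.trans h.2.symm))
  by_cases h1 : a.val = i <;> by_cases h2 : b.val = i
  · exact absurd ⟨h1, h2⟩ h
  all_goals simp [h1, h2, one3]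

theorem one3_two : ∀ a b y : Bool, one3 a b y = true → (a && b) = false := by decide

theorem colF_correct (E : List (ℕ × ℕ)) : Col 3 E ↔ OneInThree (colF E) := by
  constructor
  · rintro ⟨c, hc⟩
    refine ⟨valF E c, fun cl hcl => ?_⟩
    obtain ⟨e, k, h1, h2⟩ := (mem_colF E cl).1 hcl
    have h3 := hc e (List.mem_of_getElem? h1)
    simp only [edgeCl, List.mem_cons, List.not_mem_nil, or_false] at h2
    rcases h2 with rfl | rfl | rfl | rfl | rfl
    · exact fin3_one3 (c e.1)
    · exact fin3_one3 (c e.2)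
    all_goals
      simp only [valF, if_true, one_ne_zero, if_false, h1]
      exact fin3_edge _ _ _ h3
  · rintro ⟨τ, hτ⟩
    refine ⟨fun v => if τ (0, v, 0) = true then 0 else if τ (0, v, 1) = true then 1 else 2,
      fun e he => ?_⟩
    obtain ⟨k, hk⟩ := List.getElem?_of_mem he
    have h := fun cl hcl => hτ cl ((mem_colF E cl).2 ⟨e, k, hk, hcl⟩)
    have h1 := h _ (List.mem_cons_self)
    have h2 := h _ (List.mem_cons_of_mem _ (List.mem_cons_self))
    have h3 := h _ (List.mem_cons_of_mem _ (List.mem_cons_of_mem _ (List.mem_cons_self)))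
    have h4 := h _ (List.mem_cons_of_mem _ (List.mem_cons_of_mem _ (List.mem_cons_of_mem _
      (List.mem_cons_self))))
    have h5 := h _ (List.mem_cons_of_mem _ (List.mem_cons_of_mem _ (List.mem_cons_of_mem _
      (List.mem_cons_of_mem _ (List.mem_cons_self)))))
    dsimp only at h1 h2 h3 h4 h5
    have g3 := one3_two _ _ _ h3
    have g4 := one3_two _ _ _ h4
    have g5 := one3_two _ _ _ h5
    clear h3 h4 h5
    revert h1 h2 g3 g4 g5
    dsimp only
    generalize τ (0, e.1, 0) = a0
    generalize τ (0, e.1, 1) = a1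
    generalize τ (0, e.1, 2) = a2
    generalize τ (0, e.2, 0) = b0
    generalize τ (0, e.2, 1) = b1
    generalize τ (0, e.2, 2) = b2
    clear h
    revert a0 a1 a2 b0 b1 b2
    set_option synthInstance.maxSize 4000 in
    decide +kernel

theorem colF_poly : Poly colF := by
  unfold colF edgeCl
  fun_prop

end Pool.Agent.H603R2.NLT
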