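import Pool.Agent.H603R2.NLT.Mod21

/-!
The big family of sets of the reduction and its realisations by tournaments.
-/

namespace Pool.Agent.H603R2.NLT

open Finset

/-- `σ` assigns to every element `v` a row `σ v`, in such a way that these rows are the
out-neighbourhoods of a tournament. -/
def Realises {V : Type*} (Γ : V → V → Bool) (σ : Equiv.Perm V) : Prop :=
  (∀ v, Γ (σ v) v = false) ∧ ∀ v w, v ≠ w → Γ (σ v) w ≠ Γ (σ w) v

/-- the tournament on the padding elements of a block -/
def circ (h r s : ℕ) : Bool := (decide (r < s) && decide (s ≤ r + h)) || decide (s + h < r)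

/-- entries inside a block -/
def inner (h r s : ℕ) : Bool :=
  if r < 21 then (if s < 21 then inA r s else true) else (if s < 21 then false else circ h r s)

/-- entries between different blocks -/
def cross (t : ℕ → ℕ → ℕ) (p r q s : ℕ) : Bool :=
  if r < 21 ∧ s < 21 then (if p < q then lf (t p q) r s else lg (t q p) r s) else decide (p < q)

/-- the big family -/
def g (h : ℕ) (t : ℕ → ℕ → ℕ) (p r q s : ℕ) : Bool :=
  if p = q then inner h r s else cross t p r q s

/-- the big family, on its index set -/
def G (N h : ℕ) (t : ℕ → ℕ → ℕ) (x y : Fin N × Fin (2 * h + 22)) : Bool :=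
  g h t x.1 x.2 y.1 y.2

theorem circ_diag (h r : ℕ) : circ h r r = false := by simp [circ]

theorem circ_tour (h r s : ℕ) (hrs : r ≠ s) : circ h r s ≠ circ h s r := by
  unfold circ
  rcases Nat.lt_or_gt_of_ne hrs with h1 | h1
  · have a1 : decide (r < s) = true := decide_eq_true h1
    have a2 : decide (s + h < r) = false := decide_eq_false (by omega)
    have a3 : decide (s < r) = false := decide_eq_false (by omega)
    rw [a1, a2, a3]
    by_cases h2 : s ≤ r + h
    · rw [decide_eq_true h2, decide_eq_false (show ¬ (r + h < s) by omega)]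
      simp
    · rw [decide_eq_false h2, decide_eq_true (show r + h < s by omega)]
      simp
  · have a1 : decide (s < r) = true := decide_eq_true h1
    have a2 : decide (r + h < s) = false := decide_eq_false (by omega)
    have a3 : decide (r < s) = false := decide_eq_false (by omega)
    rw [a1, a2, a3]
    by_cases h2 : r ≤ s + h
    · rw [decide_eq_true h2, decide_eq_false (show ¬ (s + h < r) by omega)]
      simp
    · rw [decide_eq_false h2, decide_eq_true (show s + h < r by omega)]
      simp

section Sufficiency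

variable {N h : ℕ} {t : ℕ → ℕ → ℕ}

/-- the row of an element, for a solution `s` of the constraints -/
def asg (s : ℕ → ℕ) (hs : ∀ p < N, s p < 3) (x : Fin N × Fin (2 * h + 22)) :
    Fin N × Fin (2 * h + 22) :=
  (x.1, if hr : x.2.val < 21 then ⟨pf (s x.1) x.2, lt_of_lt_of_le (pf_lt _ (hs _ x.1.2) _ hr)
    (by omega)⟩ else x.2)

theorem asg_fst (s : ℕ → ℕ) (hs : ∀ p < N, s p < 3) (x : Fin N × Fin (2 * h + 22)) :
    (asg s hs x).1 = x.1 := rfl

theorem asg_lt (s : ℕ → ℕ) (hs : ∀ p < N, s p < 3) (x : Fin N × Fin (2 * h + 22))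
    (hr : x.2.val < 21) : (asg s hs x).2.val = pf (s x.1) x.2 := by
  unfold asg
  rw [dif_pos hr]

theorem asg_ge (s : ℕ → ℕ) (hs : ∀ p < N, s p < 3) (x : Fin N × Fin (2 * h + 22))
    (hr : ¬ x.2.val < 21) : (asg s hs x).2 = x.2 := by
  unfold asg
  rw [dif_neg hr]

theorem asg_inj (s : ℕ → ℕ) (hs : ∀ p < N, s p < 3) :
    Function.Injective (asg s hs : Fin N × Fin (2 * h + 22) → _) := by
  intro x y hxy
  have h1 : x.1 = y.1 := by
    have := congrArg Prod.fst hxy
    exact this
  have h2 : (asg s hs x).2 = (asg s hs y).2 := congrArg Prod.snd hxy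
  by_cases hx : x.2.val < 21
  · by_cases hy : y.2.val < 21
    · have h3 := congrArg Fin.val h2
      rw [asg_lt s hs x hx, asg_lt s hs y hy, h1] at h3
      exact Prod.ext h1 (Fin.ext (pf_inj _ (hs _ y.1.2) _ hx _ hy h3))
    · have h3 := congrArg Fin.val h2
      rw [asg_lt s hs x hx, asg_ge s hs y hy] at h3
      have := pf_lt _ (hs _ x.1.2) _ hx
      omega
  · by_cases hy : y.2.val < 21
    · have h3 := congrArg Fin.val h2
      rw [asg_ge s hs x hx, asg_lt s hs y hy] at h3
      have := pf_lt _ (hs _ y.1.2) _ hy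
      omega
    · rw [asg_ge s hs x hx, asg_ge s hs y hy] at h2
      exact Prod.ext h1 h2

theorem realises_of (ht : ∀ p q, t p q < 4) (s : ℕ → ℕ) (hs : ∀ p < N, s p < 3)
    (hrel : ∀ p q, p < q → q < N → rel (t p q) (s p) (s q) = true) :
    ∃ σ, Realises (G N h t) σ := by
  have hbij : Function.Bijective (asg s hs : Fin N × Fin (2 * h + 22) → _) :=
    Finite.injective_iff_bijective.1 (asg_inj s hs)
  refine ⟨Equiv.ofBijective _ hbij, ?_, ?_⟩
  · intro v
    change g h t _ _ _ _ = false
    simp only [Equiv.ofBijective_apply, asg_fst]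
    unfold g inner
    rw [if_pos rfl]
    by_cases hv : v.2.val < 21
    · rw [asg_lt s hs v hv, if_pos (pf_lt _ (hs _ v.1.2) _ hv), if_pos hv]
      exact pf_diag _ (hs _ v.1.2) _ hv
    · rw [asg_ge s hs v hv, if_neg hv, if_neg hv]
      exact circ_diag _ _
  · intro v w hvw
    change g h t _ _ _ _ ≠ g h t _ _ _ _
    simp only [Equiv.ofBijective_apply, asg_fst]
    unfold g
    by_cases hpq : v.1.val = w.1.val
    · have hpq' : v.1 = w.1 := Fin.ext hpq
      have hrs : v.2.val ≠ w.2.val := fun e => hvw (Prod.ext hpq' (Fin.ext e))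
      rw [if_pos hpq, if_pos hpq.symm]
      unfold inner
      by_cases hv : v.2.val < 21
      · rw [asg_lt s hs v hv, if_pos (pf_lt _ (hs _ v.1.2) _ hv)]
        by_cases hw : w.2.val < 21
        · rw [asg_lt s hs w hw, if_pos hw, if_pos (pf_lt _ (hs _ w.1.2) _ hw), if_pos hv, hpq]
          exact pf_tour _ (hs _ w.1.2) _ hv _ hw hrs
        · rw [asg_ge s hs w hw, if_neg hw, if_neg hw, if_pos hv]
          simp
      · rw [asg_ge s hs v hv, if_neg hv]
        by_cases hw : w.2.val < 21
        · rw [asg_lt s hs w hw, if_pos hw, if_pos (pf_lt _ (hs _ w.1.2) _ hw), if_neg hv]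
          simp
        · rw [asg_ge s hs w hw, if_neg hw, if_neg hw, if_neg hv]
          exact circ_tour _ _ _ hrs
    · rw [if_neg hpq, if_neg (fun e => hpq e.symm)]
      unfold cross
      by_cases hv : v.2.val < 21
      · by_cases hw : w.2.val < 21
        · have e1 : pf (s v.1) v.2 < 21 ∧ w.2.val < 21 := ⟨pf_lt _ (hs _ v.1.2) _ hv, hw⟩
          have e2 : pf (s w.1) w.2 < 21 ∧ v.2.val < 21 := ⟨pf_lt _ (hs _ w.1.2) _ hw, hv⟩
          rw [asg_lt s hs v hv, asg_lt s hs w hw, if_pos e1, if_pos e2]
          rcases Nat.lt_or_gt_of_ne hpq with hlt | hlt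
          · have e3 : ¬ (w.1.val < v.1.val) := by omega
            rw [if_pos hlt, if_neg e3]
            exact (rel_iff (ht _ _) (hs _ v.1.2) (hs _ w.1.2)).2 (hrel _ _ hlt w.1.2) _ hv _ hw
          · have e3 : ¬ (v.1.val < w.1.val) := by omega
            have e4 : w.1.val < v.1.val := hlt
            rw [if_neg e3, if_pos e4]
            exact ((rel_iff (ht _ _) (hs _ w.1.2) (hs _ v.1.2)).2 (hrel _ _ hlt v.1.2) _ hw _
              hv).symm
        · rw [asg_ge s hs w hw, if_neg (fun e => hw e.2), if_neg (fun e => hw e.1)]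
          rcases Nat.lt_or_gt_of_ne hpq with hlt | hlt
          · rw [decide_eq_true hlt, decide_eq_false (by omega)]
            simp
          · rw [decide_eq_false (by omega), decide_eq_true hlt]
            simp
      · rw [asg_ge s hs v hv, if_neg (fun e => hv e.1), if_neg (fun e => hv e.2)]
        rcases Nat.lt_or_gt_of_ne hpq with hlt | hlt
        · rw [decide_eq_true hlt, decide_eq_false (by omega)]
          simp
        · rw [decide_eq_false (by omega), decide_eq_true hlt]
          simp

end Sufficiency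

end Pool.Agent.H603R2.NLT
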