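import Pool.Agent.H603R2.NLT.Core

/-!
Necessity: a realisation of the big family respects the blocks and comes from a solution of the
constraints.
-/

namespace Pool.Agent.H603R2.NLT

open Finset

theorem arith1 {N h p q R C : ℕ} (hp : p < N) (hq : q < N) (hh : 21 * N + 1 ≤ h)
    (hR1 : (N - q) * (2 * h + 1) ≤ R) (hR2 : R ≤ (N - q) * (2 * h + 1) + 21 * N)
    (hC1 : p * (2 * h + 1) ≤ C) (hC2 : C ≤ p * (2 * h + 1) + 21 * N)
    (hs : R + C + 1 = N * (2 * h + 22)) : p = q := by
  rcases lt_trichotomy p q with h1 | h1 | h1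
  · exfalso
    obtain ⟨d, rfl⟩ := Nat.exists_eq_add_of_lt h1
    obtain ⟨e, rfl⟩ := Nat.exists_eq_add_of_lt hq
    have e1 : p + d + 1 + e + 1 - (p + d + 1) = e + 1 := by omega
    rw [e1] at hR1 hR2
    nlinarith [mul_nonneg (Nat.zero_le d) (Nat.zero_le h), mul_nonneg (Nat.zero_le d) (Nat.zero_le d)]
  · exact h1
  · exfalso
    obtain ⟨d, rfl⟩ := Nat.exists_eq_add_of_lt h1
    obtain ⟨e, rfl⟩ := Nat.exists_eq_add_of_lt hp
    have e1 : q + d + 1 + e + 1 - q = d + 1 + e + 1 := by omega
    rw [e1] at hR1 hR2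
    nlinarith [mul_nonneg (Nat.zero_le d) (Nat.zero_le h), mul_nonneg (Nat.zero_le d) (Nat.zero_le d)]

theorem arith2 {N h p q R C : ℕ} (hp : p < N) (hq : q < N) (hh : 21 * N + 1 ≤ h)
    (hR : R = h + (N - 1 - q) * (2 * h + 22))
    (hC1 : p * (2 * h + 1) ≤ C) (hC2 : C ≤ p * (2 * h + 1) + 21 * N)
    (hs : R + C + 1 = N * (2 * h + 22)) : False := by
  rcases Nat.lt_or_ge q p with h1 | h1
  · obtain ⟨d, rfl⟩ := Nat.exists_eq_add_of_lt h1
    obtain ⟨e, rfl⟩ := Nat.exists_eq_add_of_lt hp
    have e1 : q + d + 1 + e + 1 - 1 - q = d + 1 + e := by omega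
    rw [e1] at hR
    nlinarith [mul_nonneg (Nat.zero_le d) (Nat.zero_le h), mul_nonneg (Nat.zero_le d) (Nat.zero_le d)]
  · obtain ⟨d, rfl⟩ := Nat.exists_eq_add_of_le h1
    obtain ⟨e, rfl⟩ := Nat.exists_eq_add_of_lt hq
    have e1 : p + d + e + 1 - 1 - (p + d) = e := by omega
    rw [e1] at hR
    nlinarith [mul_nonneg (Nat.zero_le d) (Nat.zero_le h), mul_nonneg (Nat.zero_le d) (Nat.zero_le d)]

theorem card_fin_filter (n : ℕ) (P : ℕ → Prop) [DecidablePred P] :
    (univ.filter fun i : Fin n => P i.val).card = ((range n).filter P).card := by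
  rw [← Finset.card_map Fin.valEmbedding]
  congr 1
  ext i
  simp only [mem_map, mem_filter, mem_univ, true_and, Fin.valEmbedding_apply, mem_range]
  constructor
  · rintro ⟨a, ha, rfl⟩
    exact ⟨a.2, ha⟩
  · rintro ⟨hi, hP⟩
    exact ⟨⟨i, hi⟩, hP, rfl⟩

theorem card_prod_filter (N B : ℕ) (P Q : ℕ → Prop) [DecidablePred P] [DecidablePred Q] :
    (univ.filter fun w : Fin N × Fin B => P w.1.val ∧ Q w.2.val).card =
      ((range N).filter P).card * ((range B).filter Q).card := by
  rw [← card_fin_filter, ← card_fin_filter, ← Finset.card_product]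
  congr 1
  ext w
  simp

theorem card_lt (n k : ℕ) (hk : k ≤ n) : ((range n).filter fun i => i < k).card = k := by
  have : (range n).filter (fun i => i < k) = range k := by
    ext i
    simp only [mem_filter, mem_range]
    omega
  rw [this, card_range]

theorem card_ge (n k : ℕ) : ((range n).filter fun i => k ≤ i).card = n - k := by
  have : (range n).filter (fun i => k ≤ i) = Ico k n := by
    ext i
    simp only [mem_filter, mem_range, mem_Ico]
    omega
  rw [this, Nat.card_Ico]

theorem card_eq_one' (n k : ℕ) (hk : k < n) : ((range n).filter fun i => i = k).card = 1 := by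
  rw [Finset.filter_eq' (range n) k, if_pos (mem_range.2 hk), card_singleton]

theorem card_circ (h r : ℕ) (hr : 21 ≤ r) (hr' : r < 2 * h + 22) :
    ((range (2 * h + 22)).filter fun s => 21 ≤ s ∧ circ h r s = true).card = h := by
  have e : (range (2 * h + 22)).filter (fun s => 21 ≤ s ∧ circ h r s = true) =
      Ioc r (min (r + h) (2 * h + 21)) ∪ Ico 21 (r - h) := by
    ext s
    unfold circ
    simp only [mem_filter, mem_range, mem_union, mem_Ioc, mem_Ico, Bool.or_eq_true,
      Bool.and_eq_true, decide_eq_true_eq]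
    omega
  have hd : Disjoint (Ioc r (min (r + h) (2 * h + 21))) (Ico 21 (r - h)) := by
    rw [Finset.disjoint_left]
    intro s
    simp only [mem_Ioc, mem_Ico]
    omega
  rw [e, card_union_of_disjoint hd, Nat.card_Ioc, Nat.card_Ico]
  omega

section Necessity

variable {N h : ℕ} {t : ℕ → ℕ → ℕ}

/-- the row of `u` -/
def rowS (N h : ℕ) (t : ℕ → ℕ → ℕ) (u : Fin N × Fin (2 * h + 22)) :
    Finset (Fin N × Fin (2 * h + 22)) := univ.filter fun w => G N h t u w = true

/-- the column of `v` -/
def colS (N h : ℕ) (t : ℕ → ℕ → ℕ) (v : Fin N × Fin (2 * h + 22)) :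
    Finset (Fin N × Fin (2 * h + 22)) := univ.filter fun w => G N h t w v = true

theorem mem_rowS (u w : Fin N × Fin (2 * h + 22)) :
    w ∈ rowS N h t u ↔ g h t u.1 u.2 w.1 w.2 = true := by
  unfold rowS
  rw [mem_filter]
  simp only [mem_univ, true_and]
  rfl

theorem mem_colS (v w : Fin N × Fin (2 * h + 22)) :
    w ∈ colS N h t v ↔ g h t w.1 w.2 v.1 v.2 = true := by
  unfold colS
  rw [mem_filter]
  simp only [mem_univ, true_and]
  rfl

theorem row_add_col {σ : Equiv.Perm (Fin N × Fin (2 * h + 22))} (hσ : Realises (G N h t) σ)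
    (v : Fin N × Fin (2 * h + 22)) :
    (rowS N h t (σ v)).card + (colS N h t v).card + 1 = N * (2 * h + 22) := by
  have h1 : (univ.filter fun w => G N h t (σ w) v = true).card = (colS N h t v).card := by
    rw [← Finset.card_map σ.toEmbedding]
    congr 1
    ext u
    rw [mem_colS, mem_map]
    constructor
    · rintro ⟨a, ha, rfl⟩
      rw [mem_filter] at ha
      exact ha.2
    · intro hu
      refine ⟨σ.symm u, ?_, σ.apply_symm_apply u⟩
      rw [mem_filter, σ.apply_symm_apply]
      exact ⟨mem_univ _, hu⟩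
  have h2 : Disjoint (rowS N h t (σ v)) (univ.filter fun w => G N h t (σ w) v = true) := by
    rw [Finset.disjoint_left]
    intro w hw hw'
    rw [mem_rowS] at hw
    rw [mem_filter] at hw'
    have hw : G N h t (σ v) w = true := hw
    by_cases e : v = w
    · subst e
      rw [hσ.1] at hw
      simp at hw
    · exact hσ.2 v w e (hw.trans hw'.2.symm)
  have h3 : rowS N h t (σ v) ∪ (univ.filter fun w => G N h t (σ w) v = true) =
      univ.erase v := by
    ext w
    rw [mem_union, mem_rowS, mem_filter, mem_erase]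
    change G N h t (σ v) w = true ∨ _ ↔ _
    simp only [mem_univ, true_and, and_true]
    constructor
    · rintro (hw | hw) rfl
      · rw [hσ.1] at hw
        simp at hw
      · rw [hσ.1] at hw
        simp at hw
    · intro hw
      have := hσ.2 v w (fun e => hw e.symm)
      cases e1 : G N h t (σ v) w <;> cases e2 : G N h t (σ w) v <;> simp_all
  have h4 := card_union_of_disjoint h2
  rw [h3, card_erase_of_mem (mem_univ v), card_univ, Fintype.card_prod, Fintype.card_fin,
    Fintype.card_fin] at h4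
  have hpos : 0 < N * (2 * h + 22) := Nat.mul_pos (lt_of_le_of_lt (Nat.zero_le _) v.1.2) (by omega)
  omega

theorem row_lower (u : Fin N × Fin (2 * h + 22)) (hu : u.2.val < 21) :
    (N - u.1.val) * (2 * h + 1) ≤ (rowS N h t u).card := by
  have h1 := card_prod_filter N (2 * h + 22) (fun i => u.1.val ≤ i) (fun i => 21 ≤ i)
  rw [card_ge, card_ge, show 2 * h + 22 - 21 = 2 * h + 1 by omega] at h1
  rw [← h1]
  apply Finset.card_le_card
  intro w hw
  simp only [mem_filter, mem_univ, true_and] at hw
  rw [mem_rowS]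
  unfold g
  by_cases h2 : u.1.val = w.1.val
  · rw [if_pos h2]
    unfold inner
    rw [if_pos hu, if_neg (by omega)]
  · rw [if_neg h2]
    unfold cross
    rw [if_neg (by omega)]
    exact decide_eq_true (by omega)

theorem row_upper (u : Fin N × Fin (2 * h + 22)) (hu : u.2.val < 21) :
    (rowS N h t u).card ≤ (N - u.1.val) * (2 * h + 1) + 21 * N := by
  have h1 := card_prod_filter N (2 * h + 22) (fun i => u.1.val ≤ i) (fun i => 21 ≤ i)
  rw [card_ge, card_ge, show 2 * h + 22 - 21 = 2 * h + 1 by omega] at h1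
  have h2 := card_prod_filter N (2 * h + 22) (fun _ => True) (fun i => i < 21)
  have e2 : ((range N).filter fun _ => True).card = N := by simp
  rw [card_lt _ _ (by omega), e2, mul_comm N 21] at h2
  rw [← h1, ← h2]
  refine (Finset.card_le_card ?_).trans (Finset.card_union_le _ _)
  intro w hw
  rw [mem_rowS] at hw
  simp only [mem_union, mem_filter, mem_univ, true_and]
  by_contra hcon
  have h3 : ¬ (w.2.val < 21) := fun h5 => hcon (Or.inr h5)
  have h4 : ¬ (u.1.val ≤ w.1.val) := by
    intro h5
    exact hcon (Or.inl ⟨h5, by omega⟩)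
  unfold g cross at hw
  rw [if_neg (by omega), if_neg (by omega), decide_eq_true_eq] at hw
  omega

theorem row_pad (u : Fin N × Fin (2 * h + 22)) (hu : ¬ u.2.val < 21) :
    (rowS N h t u).card = h + (N - 1 - u.1.val) * (2 * h + 22) := by
  have h1 := card_prod_filter N (2 * h + 22) (fun i => i = u.1.val)
    (fun s => 21 ≤ s ∧ circ h u.2.val s = true)
  rw [card_eq_one' _ _ u.1.2, card_circ h _ (by omega) u.2.2, one_mul] at h1
  have h2 := card_prod_filter N (2 * h + 22) (fun i => u.1.val + 1 ≤ i) (fun _ => True)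
  have e2 : ((range (2 * h + 22)).filter fun _ => True).card = 2 * h + 22 := by simp
  rw [card_ge, e2, show N - (u.1.val + 1) = N - 1 - u.1.val by omega] at h2
  have h3 : rowS N h t u = (univ.filter fun w : Fin N × Fin (2 * h + 22) => w.1.val = u.1.val ∧
      (21 ≤ w.2.val ∧ circ h u.2.val w.2.val = true)) ∪
      (univ.filter fun w : Fin N × Fin (2 * h + 22) => u.1.val + 1 ≤ w.1.val ∧ True) := by
    ext w
    rw [mem_rowS]
    simp only [mem_union, mem_filter, mem_univ, true_and, and_true]
    unfold g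
    by_cases h4 : u.1.val = w.1.val
    · rw [if_pos h4]
      unfold inner
      rw [if_neg hu]
      by_cases h5 : w.2.val < 21
      · rw [if_pos h5]
        simp only [Bool.false_eq_true, false_iff]
        omega
      · rw [if_neg h5]
        constructor
        · intro h6
          exact Or.inl ⟨h4.symm, by omega, h6⟩
        · rintro (h6 | h6)
          · exact h6.2.2
          · omega
    · rw [if_neg h4]
      unfold cross
      rw [if_neg (by omega), decide_eq_true_eq]
      omega
  have h4 : Disjoint (univ.filter fun w : Fin N × Fin (2 * h + 22) => w.1.val = u.1.val ∧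
      (21 ≤ w.2.val ∧ circ h u.2.val w.2.val = true))
      (univ.filter fun w : Fin N × Fin (2 * h + 22) => u.1.val + 1 ≤ w.1.val ∧ True) := by
    rw [Finset.disjoint_left]
    intro w
    simp only [mem_filter, mem_univ, true_and, and_true]
    omega
  rw [h3, card_union_of_disjoint h4, h1, h2]

theorem col_lower (v : Fin N × Fin (2 * h + 22)) (hv : v.2.val < 21) :
    v.1.val * (2 * h + 1) ≤ (colS N h t v).card := by
  have h1 := card_prod_filter N (2 * h + 22) (fun i => i < v.1.val) (fun i => 21 ≤ i)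
  rw [card_lt _ _ v.1.2.le, card_ge, show 2 * h + 22 - 21 = 2 * h + 1 by omega] at h1
  rw [← h1]
  apply Finset.card_le_card
  intro w hw
  simp only [mem_filter, mem_univ, true_and] at hw
  rw [mem_colS]
  unfold g cross
  rw [if_neg (by omega), if_neg (by omega)]
  exact decide_eq_true (by omega)

theorem col_upper (v : Fin N × Fin (2 * h + 22)) (hv : v.2.val < 21) :
    (colS N h t v).card ≤ v.1.val * (2 * h + 1) + 21 * N := by
  have h1 := card_prod_filter N (2 * h + 22) (fun i => i < v.1.val) (fun i => 21 ≤ i)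
  rw [card_lt _ _ v.1.2.le, card_ge, show 2 * h + 22 - 21 = 2 * h + 1 by omega] at h1
  have h2 := card_prod_filter N (2 * h + 22) (fun _ => True) (fun i => i < 21)
  have e2 : ((range N).filter fun _ => True).card = N := by simp
  rw [card_lt _ _ (by omega), e2, mul_comm N 21] at h2
  rw [← h1, ← h2]
  refine (Finset.card_le_card ?_).trans (Finset.card_union_le _ _)
  intro w hw
  rw [mem_colS] at hw
  simp only [mem_union, mem_filter, mem_univ, true_and]
  by_contra hcon
  have h3 : ¬ (w.2.val < 21) := fun h5 => hcon (Or.inr h5)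
  have h4 : ¬ (w.1.val < v.1.val) := by
    intro h5
    exact hcon (Or.inl ⟨h5, by omega⟩)
  unfold g at hw
  by_cases h5 : w.1.val = v.1.val
  · rw [if_pos h5] at hw
    unfold inner at hw
    rw [if_neg h3, if_pos hv] at hw
    simp at hw
  · rw [if_neg h5] at hw
    unfold cross at hw
    rw [if_neg (by omega), decide_eq_true_eq] at hw
    omega

theorem block {σ : Equiv.Perm (Fin N × Fin (2 * h + 22))} (hσ : Realises (G N h t) σ)
    (hh : 21 * N + 1 ≤ h) (v : Fin N × Fin (2 * h + 22)) (hv : v.2.val < 21) :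
    (σ v).1.val = v.1.val ∧ (σ v).2.val < 21 := by
  have hs := row_add_col hσ v
  have hC1 := col_lower (t := t) v hv
  have hC2 := col_upper (t := t) v hv
  by_cases hu : (σ v).2.val < 21
  · exact ⟨(arith1 v.1.2 (σ v).1.2 hh (row_lower _ hu) (row_upper _ hu) hC1 hC2 hs).symm, hu⟩
  · exact (arith2 v.1.2 (σ v).1.2 hh (row_pad _ hu) hC1 hC2 hs).elim

theorem of_realises (ht : ∀ p q, t p q < 4) (hh : 21 * N + 1 ≤ h)
    {σ : Equiv.Perm (Fin N × Fin (2 * h + 22))} (hσ : Realises (G N h t) σ) :
    ∃ s : ℕ → ℕ, (∀ p < N, s p < 3) ∧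
      ∀ p q, p < q → q < N → rel (t p q) (s p) (s q) = true := by
  -- the restriction of `σ` to the module elements of a block
  have hx : ∀ p : Fin N, ∃ a < 3, ∀ (r : ℕ) (hr : r < 21),
      (σ (p, ⟨r, by omega⟩)).2.val = pf a r := by
    intro p
    let ρ : ℕ → ℕ := fun r => if hr : r < 21 then (σ (p, ⟨r, by omega⟩)).2.val else 0
    have hρ : ∀ r (hr : r < 21), ρ r = (σ (p, ⟨r, by omega⟩)).2.val := fun r hr => dif_pos hr
    have h1 : ∀ r < 21, ρ r < 21 := by
      intro r hr
      rw [hρ r hr]
      exact (block hσ hh (p, ⟨r, by omega⟩) hr).2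
    have hb : ∀ r (hr : r < 21), (σ (p, (⟨r, by omega⟩ : Fin (2 * h + 22)))).1.val = p.val :=
      fun r hr => (block hσ hh (p, ⟨r, by omega⟩) hr).1
    have hval : ∀ r (hr : r < 21) s (hs : s < 21),
        G N h t (σ (p, ⟨r, by omega⟩)) (p, ⟨s, by omega⟩) = inA (ρ r) s := by
      intro r hr s hs
      have h2 := h1 r hr
      rw [hρ r hr] at h2 ⊢
      unfold G g
      simp only
      rw [if_pos (hb r hr)]
      unfold inner
      rw [if_pos h2, if_pos hs]
    obtain ⟨a, ha, h4⟩ := real_module ρ h1 (by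
      intro r hr
      rw [← hval r hr r hr]
      exact hσ.1 _) (by
      intro r hr s hs hrs
      rw [← hval r hr s hs, ← hval s hs r hr]
      apply hσ.2
      intro e
      have := congrArg (fun x => x.2.val) e
      exact hrs this)
    exact ⟨a, ha, fun r hr => by rw [← hρ r hr]; exact h4 r hr⟩
  choose f hf3 hf using hx
  refine ⟨fun p => if hp : p < N then f ⟨p, hp⟩ else 0, ?_, ?_⟩
  · intro p hp
    simp only
    rw [dif_pos hp]
    exact hf3 _
  · intro p q hpq hq
    have hp : p < N := by omega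
    simp only
    rw [dif_pos hp, dif_pos hq]
    rw [← rel_iff (ht p q) (hf3 _) (hf3 _)]
    intro r hr s hs
    have h1 := hσ.2 (⟨p, hp⟩, ⟨r, by omega⟩) (⟨q, hq⟩, ⟨s, by omega⟩) (by
      intro e
      have := congrArg (fun x => x.1.val) e
      simp only at this
      omega)
    have b1 := block hσ hh (⟨p, hp⟩, ⟨r, by omega⟩) hr
    have b2 := block hσ hh (⟨q, hq⟩, ⟨s, by omega⟩) hs
    have c1 := hf ⟨p, hp⟩ r hr
    have c2 := hf ⟨q, hq⟩ s hs
    unfold G g at h1
    simp only at h1 b1 b2
    rw [b1.1, b2.1, if_neg (by omega), if_neg (by omega)] at h1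
    unfold cross at h1
    have e1 : (σ (⟨p, hp⟩, ⟨r, by omega⟩)).2.val < 21 ∧ s < 21 := ⟨b1.2, hs⟩
    have e2 : (σ (⟨q, hq⟩, ⟨s, by omega⟩)).2.val < 21 ∧ r < 21 := ⟨b2.2, hr⟩
    have e3 : ¬ q < p := by omega
    rw [if_pos e1, if_pos e2, if_pos hpq, if_neg e3, c1, c2] at h1
    exact h1

/-- The big family is realised by a tournament iff the constraints have a solution. -/
theorem realises_iff (ht : ∀ p q, t p q < 4) (hh : 21 * N + 1 ≤ h) :
    (∃ σ, Realises (G N h t) σ) ↔ ∃ s : ℕ → ℕ, (∀ p < N, s p < 3) ∧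
      ∀ p q, p < q → q < N → rel (t p q) (s p) (s q) = true :=
  ⟨fun ⟨_, hσ⟩ => of_realises ht hh hσ, fun ⟨s, hs, hrel⟩ => realises_of ht s hs hrel⟩

end Necessity

end Pool.Agent.H603R2.NLT
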