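import Mathlib

/-!
The tournament neighbourhood list problem.
-/

namespace Pool.Agent.H603R2.NLT

/-- The entry in row `i` and column `j` of a 0-1 matrix given by its list of rows. -/
def ent (M : List (List Bool)) (i j : ℕ) : Bool := (M.getD i []).getD j false

/-- The tournament neighbourhood list problem `NLT`: `M` is a square 0-1 matrix whose rows are, in
some order, the incidence vectors of the out-neighbourhoods of a tournament on the index set of the
columns. That is, there is a bijection `σ` from vertices to rows such that, with an arc from `i` to
`j` iff `j` belongs to the row `σ i`, there is no loop and for every pair of distinct vertices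
exactly one of the two arcs is present. -/
def NLT (M : List (List Bool)) : Prop :=
  (∀ row ∈ M, row.length = M.length) ∧ ∃ σ : Equiv.Perm (Fin M.length),
    (∀ i, ¬ ent M (σ i) i = true) ∧
      ∀ i j, i ≠ j → (ent M (σ i) j = true ↔ ¬ ent M (σ j) i = true)

end Pool.Agent.H603R2.NLT
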