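import Pool.Agent.H603R2.NLT.ColRed
import Pool.Agent.NPC.Dec

/-!
Polynomial-time computability of the reduction, and membership in `NP`.
-/

namespace Pool.Agent.H603R2.NLT

open Pool.Agent.NPC Pool.Agent.H692R2

/-! ### Hardness -/

theorem testBit_poly {α : Type} [TEnc α] {n s : α → ℕ} (hn : Poly n) (hs : Poly s) :
    Poly (fun a => (n a).testBit (s a)) := by
  have h : Poly (fun a => ((n a).bits).getD (s a) false) :=
    NPC.Poly.getD (NPC.Poly.natBits hn) hs (NPC.Poly.const false)
  refine h.congr fun a => ?_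
  rw [Nat.testBit_eq_inth]
  rfl

theorem inA_poly {α : Type} [TEnc α] {r s : α → ℕ} (hr : Poly r) (hs : Poly s) :
    Poly (fun a => inA (r a) (s a)) := by
  unfold inA
  exact testBit_poly (NPC.Poly.getD (NPC.Poly.const tabA) hr (NPC.Poly.const 0)) hs

theorem lf_poly {α : Type} [TEnc α] {t r s : α → ℕ} (ht : Poly t) (hr : Poly r) (hs : Poly s) :
    Poly (fun a => lf (t a) (r a) (s a)) := by
  unfold lf
  exact testBit_poly (NPC.Poly.getD (NPC.Poly.getD (NPC.Poly.const tabF) ht (NPC.Poly.const [])) hr
    (NPC.Poly.const 0)) hs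

theorem lg_poly {α : Type} [TEnc α] {t r s : α → ℕ} (ht : Poly t) (hr : Poly r) (hs : Poly s) :
    Poly (fun a => lg (t a) (r a) (s a)) := by
  unfold lg
  exact testBit_poly (NPC.Poly.getD (NPC.Poly.getD (NPC.Poly.const tabG) ht (NPC.Poly.const [])) hr
    (NPC.Poly.const 0)) hs

theorem comp_poly {α : Type} [TEnc α] {e : α → ℕ} {c : α → VN × VN × VN} (he : Poly e)
    (hc : Poly c) : Poly (fun a => comp (e a) (c a)) := by
  unfold comp
  fun_prop

theorem varAt_poly {α : Type} [TEnc α] {φ : α → List (VN × VN × VN)} {p : α → ℕ} (hφ : Poly φ)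
    (hp : Poly p) : Poly (fun a => varAt (φ a) (p a)) := by
  unfold varAt
  exact comp_poly (by fun_prop) (by fun_prop)

theorem tt_poly {α : Type} [TEnc α] {φ : α → List (VN × VN × VN)} {p q : α → ℕ} (hφ : Poly φ)
    (hp : Poly p) (hq : Poly q) : Poly (fun a => tt (φ a) (p a) (q a)) := by
  have h1 := varAt_poly hφ hp
  have h2 := varAt_poly hφ hq
  unfold tt
  fun_prop

theorem circ_poly {α : Type} [TEnc α] {h r s : α → ℕ} (hh : Poly h) (hr : Poly r) (hs : Poly s) :
    Poly (fun a => circ (h a) (r a) (s a)) := by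
  unfold circ
  fun_prop

theorem inner_poly {α : Type} [TEnc α] {h r s : α → ℕ} (hh : Poly h) (hr : Poly r) (hs : Poly s) :
    Poly (fun a => inner (h a) (r a) (s a)) := by
  have h1 := circ_poly hh hr hs
  have h2 := inA_poly hr hs
  unfold inner
  fun_prop

theorem g_poly {α : Type} [TEnc α] {φ : α → List (VN × VN × VN)} {h p r q s : α → ℕ}
    (hφ : Poly φ) (hh : Poly h) (hp : Poly p) (hr : Poly r) (hq : Poly q) (hs : Poly s) :
    Poly (fun a => g (h a) (tt (φ a)) (p a) (r a) (q a) (s a)) := by
  have h1 := inner_poly hh hr hs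
  have h2 := lf_poly (tt_poly hφ hp hq) hr hs
  have h3 := lg_poly (tt_poly hφ hq hp) hr hs
  unfold g cross
  fun_prop

theorem redM_poly : Poly redM := by
  unfold redM matOf hw
  have hU : UPoly (fun φ : List (VN × VN × VN) =>
      3 * φ.length * (2 * (21 * (3 * φ.length) + 1) + 22)) :=
    UPoly.mul (UPoly.mul (UPoly.const 3) (UPoly.length NPC.Poly.id))
      (UPoly.add (UPoly.mul (UPoly.const 2) (UPoly.add (UPoly.mul (UPoly.const 21)
        (UPoly.mul (UPoly.const 3) (UPoly.length NPC.Poly.id))) (UPoly.const 1)))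
        (UPoly.const 22))
  refine NPC.Poly.map hU.range ?_
  refine NPC.Poly.map (hU.range.comp (NPC.Poly.fst NPC.Poly.id)) ?_
  refine g_poly (by fun_prop) (by fun_prop) (by fun_prop) (by fun_prop) (by fun_prop)
    (by fun_prop)

theorem nlt_hard : NPHardP NLT :=
  ((((hardPr_col 3 le_rfl).trans colF_poly colF_dist fun E _ => colF_correct E).trans
    (Pr' := fun _ => True) redM_poly (fun _ _ => trivial) fun φ hφ => redM_correct φ hφ).toHardI).toNPHardP

/-! ### Membership -/

/-- the verifier -/
def ver (x : List (List Bool) × List ℕ) : Bool :=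
  (x.1.all fun row => decide (row.length = x.1.length)) && decide (x.2.length = x.1.length) &&
  (x.2.all fun r => decide (r < x.1.length)) &&
  (List.range x.1.length).all fun i => !ent x.1 (x.2.getD i 0) i &&
    (List.range x.1.length).all fun j => decide (i = j) ||
      (ent x.1 (x.2.getD i 0) j != ent x.1 (x.2.getD j 0) i)

theorem ent_poly {α : Type} [TEnc α] {M : α → List (List Bool)} {i j : α → ℕ} (hM : Poly M)
    (hi : Poly i) (hj : Poly j) : Poly (fun a => ent (M a) (i a) (j a)) := by
  unfold ent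
  fun_prop

theorem ver_poly : Poly ver := by
  unfold ver
  have hr : Poly (fun x : List (List Bool) × List ℕ => List.range x.1.length) :=
    NPC.Poly.range_length (NPC.Poly.fst NPC.Poly.id)
  have h1 : Poly (fun x : (List (List Bool) × List ℕ) × ℕ =>
      ent x.1.1 (x.1.2.getD x.2 0) x.2) :=
    ent_poly (by fun_prop) (by fun_prop) (by fun_prop)
  have h2 : Poly (fun x : ((List (List Bool) × List ℕ) × ℕ) × ℕ =>
      ent x.1.1.1 (x.1.1.2.getD x.1.2 0) x.2) :=
    ent_poly (by fun_prop) (by fun_prop) (by fun_prop)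
  have h3 : Poly (fun x : ((List (List Bool) × List ℕ) × ℕ) × ℕ =>
      ent x.1.1.1 (x.1.1.2.getD x.2 0) x.1.2) :=
    ent_poly (by fun_prop) (by fun_prop) (by fun_prop)
  refine NPC.Poly.and (by fun_prop) (NPC.Poly.all hr ?_)
  refine NPC.Poly.and (NPC.Poly.not h1) (NPC.Poly.all (hr.comp (NPC.Poly.fst NPC.Poly.id)) ?_)
  exact NPC.Poly.or (by fun_prop) ((NPC.Poly.xor h2 h3).congr fun a => by
    cases ent a.1.1.1 (a.1.1.2.getD a.1.2 0) a.2 <;>
    cases ent a.1.1.1 (a.1.1.2.getD a.2 0) a.1.2 <;> rfl)

theorem nlt_np : InNPP NLT := by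
  refine inNPP_of ver_poly (Polynomial.X * (Polynomial.C 4 * Polynomial.X + Polynomial.C 2) +
    Polynomial.C 1) fun M => ?_
  constructor
  · rintro ⟨hsq, σ, h1, h2⟩
    refine ⟨List.ofFn fun i => (σ i).val, ?_, ?_⟩
    · refine (sz_le_length_mul _ (4 * M.length + 1) ?_).trans ?_
      · intro a ha
        rw [List.mem_ofFn] at ha
        obtain ⟨i, rfl⟩ := ha
        have h3 := sz_nat_le (σ i).val
        have h4 := NPC.Poly.size_le_self (σ i).val
        have h5 := (σ i).2
        omega
      · rw [List.length_ofFn]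
        have h3 := length_lt_sz M
        simp only [Polynomial.eval_add, Polynomial.eval_mul, Polynomial.eval_X, Polynomial.eval_C]
        refine Nat.add_le_add_right (Nat.mul_le_mul (by omega) (by omega)) 1
    · have hg : ∀ i (hi : i < M.length), (List.ofFn fun i => (σ i).val).getD i 0 = (σ ⟨i, hi⟩).val := by
        intro i hi
        rw [List.getD_eq_getElem _ _ (by simpa using hi), List.getElem_ofFn]
      unfold ver
      simp only [Bool.and_eq_true, List.all_eq_true, decide_eq_true_eq, List.mem_range,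
        Bool.or_eq_true, Bool.not_eq_true', List.length_ofFn]
      refine ⟨⟨⟨hsq, trivial⟩, ?_⟩, ?_⟩
      · intro a ha
        rw [List.mem_ofFn] at ha
        obtain ⟨i, rfl⟩ := ha
        exact (σ i).2
      · intro i hi
        rw [hg i hi]
        refine ⟨Bool.eq_false_iff.2 (h1 ⟨i, hi⟩), fun j hj => ?_⟩
        by_cases hij : i = j
        · exact Or.inl hij
        · right
          rw [hg j hj]
          have h3 := (bool_ne_iff _ _).1 (h2 ⟨i, hi⟩ ⟨j, hj⟩ (fun h => hij (congrArg Fin.val h)))
          simpa using h3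
  · rintro ⟨w, -, hw⟩
    unfold ver at hw
    simp only [Bool.and_eq_true, List.all_eq_true, decide_eq_true_eq, List.mem_range,
      Bool.or_eq_true, Bool.not_eq_true', bne_iff_ne] at hw
    obtain ⟨⟨⟨hsq, hlen⟩, hlt⟩, hall⟩ := hw
    have hb : ∀ i : Fin M.length, w.getD i 0 < M.length := by
      intro i
      have hi : i.val < w.length := by rw [hlen]; exact i.2
      rw [List.getD_eq_getElem _ _ hi]
      exact hlt _ (List.getElem_mem hi)
    let f : Fin M.length → Fin M.length := fun i => ⟨w.getD i 0, hb i⟩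
    have hf0 : ∀ i, ent M (f i) i = false := fun i => (hall i i.2).1
    have hf1 : ∀ i j, i ≠ j → ent M (f i) j ≠ ent M (f j) i := by
      intro i j hij
      rcases (hall i i.2).2 j j.2 with h | h
      · exact absurd (Fin.ext h) hij
      · exact h
    have hinj : Function.Injective f := by
      intro i j hij
      by_contra hne
      apply hf1 i j hne
      rw [hij, hf0 j, ← hij, hf0 i]
    refine ⟨hsq, Equiv.ofBijective f (Finite.injective_iff_bijective.1 hinj), fun i => ?_,
      fun i j hij => ?_⟩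
    · rw [Equiv.ofBijective_apply, hf0]
      simp
    · rw [Equiv.ofBijective_apply, Equiv.ofBijective_apply]
      exact (bool_ne_iff _ _).2 (hf1 i j hij)

end Pool.Agent.H603R2.NLT
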