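import Mathlib

/-!
The module of the reduction: a family of 21 subsets of a set of 21 elements that is realised by a
tournament in exactly three ways, and the tables of the links between two such modules.
-/

namespace Pool.Agent.H603R2.NLT

/-- rows of the module, as bit masks -/
def tabA : List ℕ := [1254286, 610132, 932456, 1611442, 191653, 1333699, 374041, 255558, 1413788,
  1776752, 962853, 869833, 1632403, 1461034, 1148749, 469543, 1848380, 612714, 1200795, 319985,
  691414]

/-- entries of the module -/
def inA (r s : ℕ) : Bool := (tabA.getD r 0).testBit s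

/-- the three realisations -/
def tabP : List (List ℕ) :=
  [[0, 1, 2, 3, 4, 5, 6, 7, 8, 9, 10, 11, 12, 13, 14, 15, 16, 17, 18, 19, 20],
   [0, 2, 3, 1, 5, 6, 4, 13, 7, 9, 12, 10, 11, 8, 15, 18, 20, 16, 14, 19, 17],
   [7, 8, 9, 10, 11, 12, 13, 14, 15, 16, 17, 18, 19, 20, 0, 1, 2, 3, 4, 5, 6]]

/-- the three realisations, as functions -/
def pf (a r : ℕ) : ℕ := (tabP.getD a []).getD r 0

/-- tables of the links, rows of the earlier module: kinds 0 (none), 1 (equality of
the indicators of `2`), 2 (exchange of `1` and `2`), 3 (exchange of `0` and `2`) -/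
def tabF : List (List ℕ) :=
  [[2097151, 2097151, 2097151, 2097151, 2097151, 2097151, 2097151, 2097151, 2097151, 2097151,
    2097151, 2097151, 2097151, 2097151, 2097151, 2097151, 2097151, 2097151, 2097151, 2097151,
    2097151],
   [127, 127, 127, 127, 127, 127, 127, 2080768, 2080768, 2080768, 2080768, 2080768, 2080768,
    2080768, 16256, 16256, 16256, 16256, 16256, 16256, 16256],
   [16513, 270368, 526400, 1052688, 65800, 131586, 33796, 262401, 32912, 528416, 66624, 139268,
    1049096, 18434, 40961, 16704, 525328, 133152, 1048706, 66052, 266248],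
   [16641, 1048720, 266272, 525376, 40964, 66056, 133122, 32897, 18496, 528400, 139296, 1049090,
    66564, 262408, 16514, 270337, 526368, 1052680, 65856, 131588, 33808]]

/-- tables of the links, rows of the later module -/
def tabG : List (List ℕ) :=
  [[0, 0, 0, 0, 0, 0, 0, 0, 0, 0, 0, 0, 0, 0, 0, 0, 0, 0, 0, 0, 0],
   [2097024, 2097024, 2097024, 2097024, 2097024, 2097024, 2097024, 16383, 16383, 16383, 16383,
    16383, 16383, 16383, 2080895, 2080895, 2080895, 2080895, 2080895, 2080895, 2080895],
   [2080638, 1826783, 1570751, 1044463, 2031351, 1965565, 2063355, 1834750, 2064239, 1568735,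
    2030527, 1957883, 1048055, 2078717, 2056190, 2080447, 1571823, 1963999, 1048445, 2031099,
    1830903],
   [2080510, 1048431, 1830879, 1571775, 2056187, 2031095, 1964029, 2064254, 2078655, 1568751,
    1957855, 1048061, 2030587, 1834743, 2080637, 1826814, 1570783, 1044471, 2031295, 1965563,
    2063343]]

/-- links: row `r` of the earlier module, column `s` of the later module -/
def lf (t r s : ℕ) : Bool := ((tabF.getD t []).getD r 0).testBit s

/-- links: row `r` of the later module, column `s` of the earlier module -/
def lg (t r s : ℕ) : Bool := ((tabG.getD t []).getD r 0).testBit s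

/-- the relation expressed by a link -/
def rel (t a b : ℕ) : Bool :=
  if t = 0 then true
  else if t = 1 then decide (a = 2) == decide (b = 2)
  else if t = 2 then decide (b = [0, 2, 1].getD a 0)
  else decide (b = [2, 1, 0].getD a 0)

/-- test of a row for the element `K`, given the rows of the earlier elements (in reverse order) -/
def chk (r K : ℕ) : List ℕ → Bool
  | [] => true
  | x :: t => (inA r t.length != inA x K) && chk r K t

/-- extensions of the partial realisations of length `K` (lists in reverse order) -/
def stepL (K : ℕ) (L : List (List ℕ)) : List (List ℕ) :=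
  L.flatMap fun l => ((List.range 21).filter fun r => !(inA r K) && chk r K l).map fun r => r :: l

/-- partial realisations of length `K` (lists in reverse order) -/
def levels : ℕ → List (List ℕ)
  | 0 => [[]]
  | K + 1 => stepL K (levels K)

set_option maxRecDepth 100000 in
theorem levels_last : levels 21 = tabP.map List.reverse := by
  decide +kernel

theorem rel_iff_aux : ∀ t < 4, ∀ a < 3, ∀ b < 3,
    ((List.range 21).all fun r => (List.range 21).all fun s =>
      lf t (pf a r) s != lg t (pf b s) r) = rel t a b := by
  decide +kernel

/-- a link expresses its relation -/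
theorem rel_iff {t a b : ℕ} (ht : t < 4) (ha : a < 3) (hb : b < 3) :
    (∀ r < 21, ∀ s < 21, lf t (pf a r) s ≠ lg t (pf b s) r) ↔ rel t a b = true := by
  rw [← rel_iff_aux t ht a ha b hb]
  simp only [List.all_eq_true, List.mem_range, bne_iff_ne]

theorem pf_lt : ∀ a < 3, ∀ r < 21, pf a r < 21 := by decide

theorem pf_inj : ∀ a < 3, ∀ r < 21, ∀ s < 21, pf a r = pf a s → r = s := by decide +kernel

theorem pf_diag : ∀ a < 3, ∀ r < 21, inA (pf a r) r = false := by decide +kernel

theorem pf_tour : ∀ a < 3, ∀ r < 21, ∀ s < 21, r ≠ s → inA (pf a r) s ≠ inA (pf a s) r := by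
  decide +kernel

theorem levels_complete (ρ : ℕ → ℕ) (h1 : ∀ r < 21, ρ r < 21)
    (h2 : ∀ r < 21, inA (ρ r) r = false)
    (h3 : ∀ r < 21, ∀ s < 21, r ≠ s → inA (ρ r) s ≠ inA (ρ s) r) :
    ∀ K ≤ 21, ((List.range K).map ρ).reverse ∈ levels K := by
  intro K
  induction K with
  | zero => intro _; simp [levels]
  | succ K ih =>
    intro hK
    have ih := ih (by omega)
    rw [List.range_succ, List.map_append, List.reverse_append]
    simp only [levels, stepL, List.mem_flatMap, List.mem_map, List.mem_filter, List.mem_range]
    refine ⟨_, ih, ρ K, ⟨h1 K (by omega), ?_⟩, rfl⟩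
    rw [h2 K (by omega)]
    have key : ∀ m ≤ K, chk (ρ K) K ((List.range m).map ρ).reverse = true := by
      intro m
      induction m with
      | zero => intro _; rfl
      | succ m ihm =>
        intro hm
        rw [List.range_succ, List.map_append, List.reverse_append]
        change chk (ρ K) K (ρ m :: ((List.range m).map ρ).reverse) = true
        unfold chk
        rw [ihm (by omega), List.length_reverse, List.length_map, List.length_range,
          Bool.and_true, bne_iff_ne]
        exact h3 K (by omega) m (by omega) (by omega)
    simpa using key K le_rfl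

/-- The module is realised in exactly three ways. -/
theorem real_module (ρ : ℕ → ℕ) (h1 : ∀ r < 21, ρ r < 21)
    (h2 : ∀ r < 21, inA (ρ r) r = false)
    (h3 : ∀ r < 21, ∀ s < 21, r ≠ s → inA (ρ r) s ≠ inA (ρ s) r) :
    ∃ a < 3, ∀ r < 21, ρ r = pf a r := by
  have h := levels_complete ρ h1 h2 h3 21 le_rfl
  rw [levels_last, List.mem_map] at h
  obtain ⟨l, hl, he⟩ := h
  have he' : l = (List.range 21).map ρ := List.reverse_injective he
  rw [List.mem_iff_getElem] at hl
  obtain ⟨a, ha, hal⟩ := hl
  refine ⟨a, ha, fun r hr => ?_⟩
  unfold pf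
  rw [List.getD_eq_getElem _ _ ha, hal, he', List.getD_eq_getElem _ _ (by simpa using hr)]
  simp

end Pool.Agent.H603R2.NLT
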