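import Pool.Agent.H603R2.NLT.Core2
import Pool.Agent.H603R2.NLT.Defs
import Pool.Agent.H692R2.Col
import Pool.Agent.H671R2.PolyAuto

/-!
The reductions from 3-colourability to positive one-in-three satisfiability and from there to the
tournament neighbourhood list problem.
-/

namespace Pool.Agent.H603R2.NLT

open Pool.Agent.NPC Pool.Agent.H692R2

/-! ### Matrices of functions -/

/-- the matrix of a function -/
def matOf (n : ℕ) (f : ℕ → ℕ → Bool) : List (List Bool) :=
  (List.range n).map fun x => (List.range n).map fun y => f x y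

theorem matOf_length (n : ℕ) (f : ℕ → ℕ → Bool) : (matOf n f).length = n := by simp [matOf]

theorem ent_matOf (n : ℕ) (f : ℕ → ℕ → Bool) {i j : ℕ} (hi : i < n) (hj : j < n) :
    ent (matOf n f) i j = f i j := by
  have h1 : (matOf n f).getD i [] = (List.range n).map fun y => f i y := by
    unfold matOf
    rw [List.getD_eq_getElem _ _ (by simpa using hi), List.getElem_map, List.getElem_range]
  unfold ent
  rw [h1, List.getD_eq_getElem _ _ (by simpa using hj), List.getElem_map, List.getElem_range]

theorem bool_ne_iff (a b : Bool) : (a = true ↔ ¬ b = true) ↔ a ≠ b := by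
  cases a <;> cases b <;> simp

theorem nlt_matOf (n : ℕ) (f : ℕ → ℕ → Bool) :
    NLT (matOf n f) ↔ ∃ σ, Realises (fun i j : Fin n => f i j) σ := by
  have hl := matOf_length n f
  have key : ∀ m (hm : (matOf n f).length = m), (∃ σ : Equiv.Perm (Fin (matOf n f).length),
      (∀ i, ¬ ent (matOf n f) (σ i) i = true) ∧
      ∀ i j, i ≠ j → (ent (matOf n f) (σ i) j = true ↔ ¬ ent (matOf n f) (σ j) i = true)) ↔
      ∃ σ : Equiv.Perm (Fin m), (∀ i, ¬ ent (matOf n f) (σ i) i = true) ∧
      ∀ i j, i ≠ j → (ent (matOf n f) (σ i) j = true ↔ ¬ ent (matOf n f) (σ j) i = true) := by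
    rintro m rfl
    rfl
  unfold NLT
  rw [key n hl]
  have h1 : ∀ row ∈ matOf n f, row.length = (matOf n f).length := by
    intro row hrow
    rw [hl]
    unfold matOf at hrow
    rw [List.mem_map] at hrow
    obtain ⟨x, _, rfl⟩ := hrow
    simp
  rw [and_iff_right h1]
  refine exists_congr fun σ => ?_
  unfold Realises
  refine and_congr (forall_congr' fun i => ?_) (forall_congr' fun i => forall_congr' fun j =>
    imp_congr_right fun _ => ?_)
  · rw [ent_matOf n f (σ i).2 i.2, Bool.not_eq_true]
  · rw [ent_matOf n f (σ i).2 j.2, ent_matOf n f (σ j).2 i.2]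
    exact bool_ne_iff _ _

/-- Transport of realisations. -/
theorem realises_equiv {V W : Type*} (e : V ≃ W) (Γ : V → V → Bool) (Γ' : W → W → Bool)
    (h : ∀ x y, Γ x y = Γ' (e x) (e y)) : (∃ σ, Realises Γ σ) ↔ ∃ σ, Realises Γ' σ := by
  constructor
  · rintro ⟨σ, h1, h2⟩
    refine ⟨(e.symm.trans σ).trans e, fun v => ?_, fun v w hvw => ?_⟩
    · have := h1 (e.symm v)
      rw [h] at this
      simpa using this
    · have := h2 (e.symm v) (e.symm w) (fun h' => hvw (e.symm.injective h'))
      rw [h, h] at this
      simpa using this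
  · rintro ⟨σ, h1, h2⟩
    refine ⟨(e.trans σ).trans e.symm, fun v => ?_, fun v w hvw => ?_⟩
    · have := h1 (e v)
      rw [h]
      simpa using this
    · have := h2 (e v) (e w) (fun h' => hvw (e.injective h'))
      rw [h, h]
      simpa using this

theorem nlt_blocks (N h : ℕ) (t : ℕ → ℕ → ℕ) :
    NLT (matOf (N * (2 * h + 22)) fun x y => g h t (x / (2 * h + 22)) (x % (2 * h + 22))
      (y / (2 * h + 22)) (y % (2 * h + 22))) ↔ ∃ σ, Realises (G N h t) σ := by
  rw [nlt_matOf]
  refine (realises_equiv finProdFinEquiv _ _ fun x y => ?_).symm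
  have h1 : ∀ x : Fin N × Fin (2 * h + 22), (finProdFinEquiv x).val / (2 * h + 22) = x.1 := by
    intro x
    rw [finProdFinEquiv_apply_val, Nat.add_mul_div_left _ _ (by omega),
      Nat.div_eq_of_lt x.2.2, zero_add]
  have h2 : ∀ x : Fin N × Fin (2 * h + 22), (finProdFinEquiv x).val % (2 * h + 22) = x.2 := by
    intro x
    rw [finProdFinEquiv_apply_val, Nat.add_mul_mod_self_left, Nat.mod_eq_of_lt x.2.2]
  rw [h1, h2, h1, h2]
  rfl

/-! ### Positive one-in-three satisfiability -/

/-- variable names -/
abbrev VN : Type := ℕ × ℕ × ℕ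

/-- exactly one is true -/
def one3 (a b c : Bool) : Bool := (a && !b && !c) || (!a && b && !c) || (!a && !b && c)

/-- positive one-in-three satisfiability -/
def OneInThree (φ : List (VN × VN × VN)) : Prop :=
  ∃ τ : VN → Bool, ∀ c ∈ φ, one3 (τ c.1) (τ c.2.1) (τ c.2.2) = true

/-- the variables of every clause are distinct -/
def Dist3 (φ : List (VN × VN × VN)) : Prop :=
  ∀ c ∈ φ, c.1 ≠ c.2.1 ∧ c.1 ≠ c.2.2 ∧ c.2.1 ≠ c.2.2

/-- component of a clause -/
def comp (e : ℕ) (c : VN × VN × VN) : VN :=
  if e = 0 then c.1 else if e = 1 then c.2.1 else c.2.2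

/-- the variable of a block -/
def varAt (φ : List (VN × VN × VN)) (p : ℕ) : VN :=
  comp (p % 3) (φ.getD (p / 3) ((0, 0, 0), (0, 0, 0), (0, 0, 0)))

/-- the kind of link between two blocks -/
def tt (φ : List (VN × VN × VN)) (p q : ℕ) : ℕ :=
  if p / 3 = q / 3 then (if p % 3 = 0 then (if q % 3 = 1 then 2 else 3) else 0)
  else (if varAt φ p = varAt φ q then 1 else 0)

theorem tt_lt (φ : List (VN × VN × VN)) (p q : ℕ) : tt φ p q < 4 := by
  unfold tt
  split_ifs <;> omega

theorem varAt_getElem (φ : List (VN × VN × VN)) (k e : ℕ) (hk : k < φ.length) (he : e < 3) :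
    varAt φ (3 * k + e) = comp e φ[k] := by
  unfold varAt
  rw [show (3 * k + e) % 3 = e by omega, show (3 * k + e) / 3 = k by omega,
    List.getD_eq_getElem _ _ hk]

theorem varAt_ne (φ : List (VN × VN × VN)) (hφ : Dist3 φ) (p q : ℕ) (hp : p < 3 * φ.length)
    (hpq : p / 3 = q / 3) (hne : p ≠ q) : varAt φ p ≠ varAt φ q := by
  have hk : p / 3 < φ.length := by omega
  have h1 := hφ _ (List.getElem_mem hk)
  have e1 : p = 3 * (p / 3) + p % 3 := by omega
  have e2 : q = 3 * (p / 3) + q % 3 := by omega
  rw [e1, e2, varAt_getElem φ _ _ hk (by omega), varAt_getElem φ _ _ hk (by omega)]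
  obtain ⟨h2, h3, h4⟩ := h1
  have h5 : p % 3 ≠ q % 3 := by omega
  have h6 : p % 3 < 3 := by omega
  have h7 : q % 3 < 3 := by omega
  generalize p % 3 = a at h5 h6
  generalize q % 3 = b at h5 h7
  unfold comp
  interval_cases a <;> interval_cases b <;> first | exact absurd rfl h5 | skip
  · simpa using h2
  · simpa using h3
  · simpa using h2.symm
  · simpa using h4
  · simpa using h3.symm
  · simpa using h4.symm

theorem csp_iff (φ : List (VN × VN × VN)) (hφ : Dist3 φ) :
    OneInThree φ ↔ ∃ s : ℕ → ℕ, (∀ p < 3 * φ.length, s p < 3) ∧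
      ∀ p q, p < q → q < 3 * φ.length → rel (tt φ p q) (s p) (s q) = true := by
  classical
  constructor
  · rintro ⟨τ, hτ⟩
    -- the state of a clause
    let u : ℕ → ℕ := fun k => if τ (varAt φ (3 * k)) = true then 2 else
      if τ (varAt φ (3 * k + 1)) = true then 1 else 0
    let s : ℕ → ℕ := fun p => if p % 3 = 0 then u (p / 3) else
      if p % 3 = 1 then [0, 2, 1].getD (u (p / 3)) 0 else [2, 1, 0].getD (u (p / 3)) 0
    have hu : ∀ k, u k < 3 := by
      intro k
      simp only [u]
      split_ifs <;> omega
    have hs3 : ∀ p, s p < 3 := by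
      intro p
      have h1 := hu (p / 3)
      simp only [s]
      generalize u (p / 3) = a at h1
      interval_cases a <;> split_ifs <;> simp
    have hone : ∀ k, k < φ.length → one3 (τ (varAt φ (3 * k))) (τ (varAt φ (3 * k + 1)))
        (τ (varAt φ (3 * k + 2))) = true := by
      intro k hk
      have h1 := hτ _ (List.getElem_mem hk)
      have e0 := varAt_getElem φ k 0 hk (by omega)
      have e1 := varAt_getElem φ k 1 hk (by omega)
      have e2 := varAt_getElem φ k 2 hk (by omega)
      rw [Nat.add_zero] at e0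
      rw [e0, e1, e2]
      exact h1
    have hs : ∀ p, p < 3 * φ.length → (s p = 2 ↔ τ (varAt φ p) = true) := by
      intro p hp
      have hk : p / 3 < φ.length := by omega
      have h1 := hone (p / 3) hk
      have h6 : p % 3 < 3 := by omega
      have e1 : p = 3 * (p / 3) + p % 3 := by omega
      have e2 : varAt φ p = varAt φ (3 * (p / 3) + p % 3) := by rw [← e1]
      rw [e2]
      simp only [s, u]
      generalize p % 3 = e at h6
      generalize p / 3 = k at h1
      revert h1
      unfold one3
      generalize hA : τ (varAt φ (3 * k)) = A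
      generalize hB : τ (varAt φ (3 * k + 1)) = B
      generalize hC : τ (varAt φ (3 * k + 2)) = C
      interval_cases e
      · rw [Nat.add_zero, hA]
        cases A <;> cases B <;> cases C <;> simp
      · rw [hB]
        cases A <;> cases B <;> cases C <;> simp
      · rw [hC]
        cases A <;> cases B <;> cases C <;> simp
    refine ⟨s, fun p _ => hs3 p, fun p q hpq hq => ?_⟩
    unfold tt
    by_cases h1 : p / 3 = q / 3
    · rw [if_pos h1]
      by_cases h2 : p % 3 = 0
      · rw [if_pos h2]
        by_cases h3 : q % 3 = 1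
        · rw [if_pos h3]
          simp only [rel, s, h1, h2, h3, if_pos]
          simp
        · have h4 : q % 3 = 2 := by omega
          rw [if_neg h3]
          simp only [rel, s, h1, h2, h4]
          simp
      · rw [if_neg h2]
        simp [rel]
    · rw [if_neg h1]
      by_cases h2 : varAt φ p = varAt φ q
      · rw [if_pos h2]
        have h3 := hs p (by omega)
        have h4 := hs q hq
        rw [h2] at h3
        have h5 : s p = 2 ↔ s q = 2 := h3.trans h4.symm
        simp only [rel]
        simp only [one_ne_zero, if_false, if_true, beq_iff_eq, decide_eq_decide]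
        exact h5
      · rw [if_neg h2]
        simp [rel]
  · rintro ⟨s, hs3, hrel⟩
    refine ⟨fun v => decide (∃ p, p < 3 * φ.length ∧ varAt φ p = v ∧ s p = 2), ?_⟩
    have hs : ∀ p, p < 3 * φ.length →
        ((∃ p', p' < 3 * φ.length ∧ varAt φ p' = varAt φ p ∧ s p' = 2) ↔ s p = 2) := by
      intro p hp
      constructor
      · rintro ⟨p', hp', hv, h2⟩
        by_cases hpp : p' = p
        · rw [← hpp]
          exact h2
        · have hdiv : p' / 3 ≠ p / 3 := by
            intro hdiv
            exact varAt_ne φ hφ p' p hp' hdiv hpp hv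
          rcases Nat.lt_or_gt_of_ne hpp with hlt | hlt
          · have h3 := hrel p' p hlt hp
            unfold tt at h3
            rw [if_neg hdiv, if_pos hv] at h3
            simp only [rel, one_ne_zero, if_false, if_true, beq_iff_eq, decide_eq_decide] at h3
            exact h3.1 h2
          · have h3 := hrel p p' hlt hp'
            unfold tt at h3
            rw [if_neg (fun e => hdiv e.symm), if_pos hv.symm] at h3
            simp only [rel, one_ne_zero, if_false, if_true, beq_iff_eq, decide_eq_decide] at h3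
            exact h3.2 h2
      · intro h2
        exact ⟨p, hp, rfl, h2⟩
    intro c hc
    obtain ⟨k, hk, rfl⟩ := List.mem_iff_getElem.1 hc
    have e0 := varAt_getElem φ k 0 hk (by omega)
    have e1 := varAt_getElem φ k 1 hk (by omega)
    have e2 := varAt_getElem φ k 2 hk (by omega)
    rw [Nat.add_zero] at e0
    have c0 : comp 0 φ[k] = φ[k].1 := rfl
    have c1 : comp 1 φ[k] = φ[k].2.1 := rfl
    have c2 : comp 2 φ[k] = φ[k].2.2 := rfl
    rw [← c0, ← c1, ← c2, ← e0, ← e1, ← e2]
    have g0 := hs (3 * k) (by omega)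
    have g1 := hs (3 * k + 1) (by omega)
    have g2 := hs (3 * k + 2) (by omega)
    have r1 := hrel (3 * k) (3 * k + 1) (by omega) (by omega)
    have r2 := hrel (3 * k) (3 * k + 2) (by omega) (by omega)
    unfold tt at r1 r2
    rw [if_pos (by omega), if_pos (by omega), if_pos (by omega)] at r1
    rw [if_pos (by omega), if_pos (by omega), if_neg (by omega)] at r2
    have h3 := hs3 (3 * k) (by omega)
    simp only [g0, g1, g2]
    simp only [rel] at r1 r2
    generalize s (3 * k) = a at *
    generalize s (3 * k + 1) = b at *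
    generalize s (3 * k + 2) = d at *
    interval_cases a <;> simp_all [one3]

/-- the half-width of the padding -/
def hw (m : ℕ) : ℕ := 21 * (3 * m) + 1

/-- the reduction -/
def redM (φ : List (VN × VN × VN)) : List (List Bool) :=
  matOf (3 * φ.length * (2 * hw φ.length + 22)) fun x y => g (hw φ.length) (tt φ)
    (x / (2 * hw φ.length + 22)) (x % (2 * hw φ.length + 22))
    (y / (2 * hw φ.length + 22)) (y % (2 * hw φ.length + 22))

theorem redM_correct (φ : List (VN × VN × VN)) (hφ : Dist3 φ) :
    OneInThree φ ↔ NLT (redM φ) := by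
  unfold redM
  rw [nlt_blocks, realises_iff (tt_lt φ) (by unfold hw; omega)]
  exact csp_iff φ hφ

end Pool.Agent.H603R2.NLT
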